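import Mathlib
import Pool.Agent.V11306.Cao7

/-!
# Rotkiewicz's limit for continued fractions and Jacobi symbols

`N(p) / N̄(p)` tends to `1` as `p → ∞` through the odd integers.
-/

set_option autoImplicit false

open Filter Topology

namespace Pool.Agent.Results.MP_7c82b6_nt.Limit

/-- the value of a finite simple continued fraction `[c₁, c₂, …]` -/
def cfVal : List ℕ → ℚ
  | [] => 0
  | [c] => c
  | c :: d :: l => c + 1 / cfVal (d :: l)

/-- `c` is the finite simple continued fraction expansion of `p / n`: all partial quotients are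
positive, the last one is larger than `1`, and the value is `p / n` -/
def IsCF (p n : ℕ) (c : List ℕ) : Prop :=
  (∀ x ∈ c, 0 < x) ∧ (∃ z, c.getLast? = some z ∧ 1 < z) ∧ cfVal c = (p : ℚ) / n

/-- `M_p`: the `0 < n < p` with `(n / p) = (-1) ^ λ(n)` -/
def M (p : ℕ) : Set ℕ :=
  {n | 0 < n ∧ n < p ∧ ∃ c, IsCF p n c ∧ jacobiSym n p = (-1) ^ c.length}

/-- the set of `0 < n < p` with `(n / p) = (-1) ^ (λ(n) + 1)` -/
def Mbar (p : ℕ) : Set ℕ :=
  {n | 0 < n ∧ n < p ∧ ∃ c, IsCF p n c ∧ jacobiSym n p = (-1) ^ (c.length + 1)}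

lemma cfVal_eq (c : List ℕ) : cfVal c = Pool.Agent.V11306.Cao.cfVal c := by
  induction c with
  | nil => rfl
  | cons a l ih =>
    cases l with
    | nil => rfl
    | cons b l => rw [cfVal, Pool.Agent.V11306.Cao.cfVal, ih]

lemma isCF_iff (p n : ℕ) (c : List ℕ) : IsCF p n c ↔ Pool.Agent.V11306.Cao.IsCF p n c := by
  rw [IsCF, Pool.Agent.V11306.Cao.IsCF, cfVal_eq]

lemma M_eq (p : ℕ) : M p = Pool.Agent.V11306.Cao.M p := by
  ext n
  simp only [M, Pool.Agent.V11306.Cao.M, isCF_iff]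

lemma Mbar_eq (p : ℕ) : Mbar p = Pool.Agent.V11306.Cao.Mbar p := by
  ext n
  simp only [Mbar, Pool.Agent.V11306.Cao.Mbar, isCF_iff]

/-- Every `p / n` with `0 < n < p` has exactly one expansion, and `N(p) / N̄(p) → 1` as `p → ∞`
through the odd integers, with the explicit rate `|N(p) / N̄(p) - 1| ≤ 88 p^(-1/8)` for all odd
`p > 1` (in particular the denominators do not vanish). -/
theorem result :
    (∀ p n : ℕ, 0 < n → n < p → ∃! c, IsCF p n c) ∧
    (∀ p : ℕ, Odd p → 1 < p → (Mbar p).ncard ≠ 0 ∧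
      |((M p).ncard : ℝ) / (Mbar p).ncard - 1| ≤ 88 * (p : ℝ) ^ (-(1 / 8) : ℝ)) ∧
    Tendsto (fun k : ℕ => ((M (2 * k + 1)).ncard : ℝ) / (Mbar (2 * k + 1)).ncard) atTop (𝓝 1) := by
  refine ⟨fun p n h0 h1 => ?_, fun p hp hp1 => ?_, ?_⟩
  · simp only [isCF_iff]
    exact Pool.Agent.V11306.Cao.cf_existsUnique p n h0 h1
  · rw [M_eq, Mbar_eq]
    have hp2 := Nat.odd_iff.mp hp
    refine ⟨?_, Pool.Agent.V11306.Cao.ratio_bound p hp2 hp1⟩
    have hsum := Pool.Agent.V11306.Cao.N_add p hp hp1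
    have htp : 0 < p.totient := Nat.totient_pos.mpr (by omega)
    have hle : Pool.Agent.V11306.Cao.N p ≤ Pool.Agent.V11306.Cao.Nbar p := by
      rcases (by omega : p % 4 = 1 ∨ p % 4 = 3) with h | h
      · exact (Pool.Agent.V11306.Cao.eq_of_one p h hp1).le
      · exact Pool.Agent.V11306.Cao.N_le p h
    have : Pool.Agent.V11306.Cao.Nbar p ≠ 0 := by omega
    exact this
  · simp only [M_eq, Mbar_eq]
    exact Pool.Agent.V11306.Cao.ratio_tendsto

end Pool.Agent.Results.MP_7c82b6_nt.Limit
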